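import Pool.Agent.Helper44.HD.GoalsH

/-!
# Project HD (MP_e5f486_ag), packet AD

Additivity in short exact sequences of bimodules.
-/

set_option autoImplicit false

open Finset

namespace Pool.Agent.Helper70.HD

open Pool.Agent.Helper44.HD

/-- a cochain restricted to a line is a polynomial -/
theorem poly_line {k B : Type} [Field k] [AddCommGroup B] [Module k B] {m : ℕ}
    {ψ : (ℕ → B) → k} (h : Coch k m ψ) (u v : ℕ → B) :
    ∃ P : Polynomial k, P.natDegree ≤ m + 1 ∧ ∀ t : k, ψ (fun i => u i + t • v i) = P.eval t := by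
  have key : ∀ q : ℕ, q ≤ m + 1 → ∀ w : ℕ → B, ∃ P : Polynomial k, P.natDegree ≤ q ∧
      ∀ t : k, ψ (fun i => if i < q then u i + t • v i else w i) = P.eval t := by
    intro q
    induction q with
    | zero =>
      intro _ w
      refine ⟨Polynomial.C (ψ w), by simp, fun t => ?_⟩
      simp
    | succ q ih =>
      intro hq w
      obtain ⟨P1, h1, h1'⟩ := ih (by omega) (Function.update w q (u q))
      obtain ⟨P2, h2, h2'⟩ := ih (by omega) (Function.update w q (v q))
      refine ⟨P1 + Polynomial.X * P2, ?_, fun t => ?_⟩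
      · refine (Polynomial.natDegree_add_le _ _).trans (max_le (h1.trans (by omega)) ?_)
        refine (Polynomial.natDegree_mul_le).trans ?_
        have := Polynomial.natDegree_X_le (R := k)
        omega
      · have e0 : (fun i => if i < q + 1 then u i + t • v i else w i) =
            Function.update (fun i => if i < q then u i + t • v i else w i) q
              (u q + t • v q) := by
          funext i
          by_cases hi : i = q
          · subst hi; simp
          · rw [Function.update_of_ne hi]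
            by_cases hi2 : i < q
            · rw [if_pos hi2, if_pos (by omega)]
            · rw [if_neg hi2, if_neg (by omega)]
        have e1 : ∀ b : B, (fun i => if i < q then u i + t • v i else
            Function.update w q b i) =
            Function.update (fun i => if i < q then u i + t • v i else w i) q b := by
          intro b
          funext i
          by_cases hi : i = q
          · subst hi; simp
          · rw [Function.update_of_ne hi, Function.update_of_ne hi]
        rw [e0, h.add _ _ _ _ (by omega), h.smul _ _ _ _ (by omega), ← e1 (u q), ← e1 (v q),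
          h1' t, h2' t]
        simp [smul_eq_mul]
  obtain ⟨P, hP, hP'⟩ := key (m + 1) le_rfl (fun _ => 0)
  refine ⟨P, hP, fun t => ?_⟩
  rw [← hP' t]
  exact h.dep _ _ (fun i hi => by rw [if_pos (by omega)])

/-- interpolation at `0` -/
theorem interp (k : Type) [Field k] [CharZero k] (m : ℕ) : ∃ l : ℕ → k,
    (∑ j ∈ range (m + 1), l j = 1) ∧ ∀ P : Polynomial k, P.natDegree ≤ m →
      P.eval 0 = ∑ j ∈ range (m + 1), l j * P.eval ((j : k) + 1) := by
  classical
  have hinj : Set.InjOn (fun j : ℕ => (j : k) + 1) ((range (m + 1) : Finset ℕ) : Set ℕ) := by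
    intro a _ b _ hab
    simpa using hab
  refine ⟨fun j => (Lagrange.basis (range (m + 1)) (fun j : ℕ => (j : k) + 1) j).eval 0, ?_, ?_⟩
  · have h := Lagrange.sum_basis hinj ⟨0, by simp⟩
    have h2 := congrArg (Polynomial.eval 0) h
    rw [Polynomial.eval_finsetSum, Polynomial.eval_one] at h2
    exact h2
  · intro P hP
    have hdeg : P.degree < ((range (m + 1)).card : WithBot ℕ) := by
      rw [card_range]
      refine lt_of_le_of_lt Polynomial.degree_le_natDegree ?_
      exact_mod_cast Nat.lt_succ_of_le hP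
    have h := Lagrange.eq_interpolate hinj hdeg
    have h2 := congrArg (Polynomial.eval 0) h
    rw [h2, Lagrange.interpolate_apply, Polynomial.eval_finsetSum]
    refine sum_congr rfl fun j _ => ?_
    rw [Polynomial.eval_mul, Polynomial.eval_C]
    ring

/-- the trace form of a block diagonal matrix -/
theorem tc_diag {k E κ' κ'' : Type} [Field k] [Ring E] [Algebra k E] [Fintype κ']
    [DecidableEq κ'] [Fintype κ''] [DecidableEq κ''] {m : ℕ} {φ : (ℕ → E) → k}
    (h : Coch k m φ) (D' : ℕ → Matrix κ' κ' E) (D'' : ℕ → Matrix κ'' κ'' E) :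
    tc m φ (fun j => Matrix.fromBlocks (D' j) 0 0 (D'' j)) = tc m φ D' + tc m φ D'' := by
  classical
  unfold tc
  have hinjL : Function.Injective (fun ι : Fin (m + 1) → κ' => (fun c => (Sum.inl (ι c) : κ' ⊕ κ''))) := by
    intro a b hab
    funext c
    exact Sum.inl_injective (congrFun hab c)
  have hinjR : Function.Injective (fun ι : Fin (m + 1) → κ'' => (fun c => (Sum.inr (ι c) : κ' ⊕ κ''))) := by
    intro a b hab
    funext c
    exact Sum.inr_injective (congrFun hab c)
  have hdisj : Disjoint
      ((univ : Finset (Fin (m + 1) → κ')).image (fun ι => (fun c => (Sum.inl (ι c) : κ' ⊕ κ''))))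
      ((univ : Finset (Fin (m + 1) → κ'')).image (fun ι => (fun c => (Sum.inr (ι c) : κ' ⊕ κ'')))) := by
    rw [Finset.disjoint_left]
    intro x hx hx'
    rw [mem_image] at hx hx'
    obtain ⟨a, _, ha⟩ := hx
    obtain ⟨b, _, hb⟩ := hx'
    have := congrFun (ha.trans hb.symm) 0
    simp at this
  rw [← Finset.sum_subset (Finset.subset_univ
    ((univ : Finset (Fin (m + 1) → κ')).image (fun ι => (fun c => (Sum.inl (ι c) : κ' ⊕ κ''))) ∪
      (univ : Finset (Fin (m + 1) → κ'')).image (fun ι => (fun c => (Sum.inr (ι c) : κ' ⊕ κ'')))))]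
  · rw [Finset.sum_union hdisj, Finset.sum_image (fun a _ b _ hab => hinjL hab),
      Finset.sum_image (fun a _ b _ hab => hinjR hab)]
    rfl
  · intro ι _ hι
    by_contra hne
    apply hι
    -- all entries are nonzero
    have hent : ∀ j, j ≤ m → (ι (Fin.ofNat (m + 1) j)).isLeft =
        (ι (Fin.ofNat (m + 1) (j + 1))).isLeft := by
      intro j hj
      by_contra hc
      apply hne
      refine h.zero_entry _ j hj ?_
      change Matrix.fromBlocks (D' j) 0 0 (D'' j) (ι (Fin.ofNat (m + 1) j))
        (ι (Fin.ofNat (m + 1) (j + 1))) = 0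
      rcases h1 : ι (Fin.ofNat (m + 1) j) with a | a <;>
        rcases h2 : ι (Fin.ofNat (m + 1) (j + 1)) with b | b
      · rw [h1, h2] at hc; simp at hc
      · simp
      · simp
      · rw [h1, h2] at hc; simp at hc
    have hall : ∀ j, j ≤ m → (ι (Fin.ofNat (m + 1) j)).isLeft = (ι 0).isLeft := by
      intro j
      induction j with
      | zero => intro _; rfl
      | succ j ih => intro hj; rw [← hent j (by omega), ih (by omega)]
    have hall' : ∀ c : Fin (m + 1), (ι c).isLeft = (ι 0).isLeft := by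
      intro c
      have h1 := hall c.1 (by omega)
      have h2 : Fin.ofNat (m + 1) c.1 = c := by
        apply Fin.ext
        simp [Fin.ofNat, Nat.mod_eq_of_lt c.2]
      rwa [h2] at h1
    rw [mem_union, mem_image, mem_image]
    cases h0 : (ι 0).isLeft with
    | true =>
      left
      have h1 : ∀ c, (ι c).isLeft = true := fun c => (hall' c).trans h0
      refine ⟨fun c => (ι c).getLeft (h1 c), mem_univ _, ?_⟩
      funext c
      simp
    | false =>
      right
      have h1 : ∀ c, (ι c).isRight = true := fun c => by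
        have := (hall' c).trans h0
        rw [← Sum.not_isLeft, this]; simp
      refine ⟨fun c => (ι c).getRight (h1 c), mem_univ _, ?_⟩
      funext c
      simp

/-- the trace form of a cocycle is a cocycle -/
theorem tc_cocy (hTR : StmtTR) {k E κ : Type} [Field k] [Ring E] [Algebra k E] [Fintype κ]
    [DecidableEq κ] {n : ℕ} {φ : (ℕ → E) → k} (h : Cocy n φ) :
    Cocy n (tc (κ := κ) n φ) := by
  obtain ⟨h1, h2⟩ := hTR k E κ n φ h.1
  refine ⟨h1, fun x => ?_⟩
  have h3 := h2 x
  have h4 : (dl n φ) = fun _ => 0 := funext h.2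
  rw [h4] at h3
  refine h3.trans ?_
  simp [tc]

theorem ad : StmtTR → StmtIN → StmtAD := by
  intro hTR hIN k E A N' N N'' κ' κ'' _ _ _ _ _ _ _ _ _ _ _ _ _ _ _ _ _ _ _ _ _ _ X' X X'' f g hf hg
    hfg hXf hXg hproj i' p' i'' p'' hp' hp''
  obtain ⟨s, hs⟩ := Module.projective_lifting_property g LinearMap.id hg
  have hs' : ∀ y, g (s y) = y := fun y => LinearMap.congr_fun hs y
  have hmem : ∀ x, ((LinearMap.id : N →ₗ[E] N) - s ∘ₗ g) x ∈ LinearMap.range f := by
    intro x
    have : g (((LinearMap.id : N →ₗ[E] N) - s ∘ₗ g) x) = 0 := by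
      simp [hs']
    obtain ⟨y, hy⟩ := (hfg _).1 this
    exact ⟨y, hy⟩
  let t : N →ₗ[E] N' := (LinearEquiv.ofInjective f hf).symm.toLinearMap ∘ₗ
    LinearMap.codRestrict (LinearMap.range f) ((LinearMap.id : N →ₗ[E] N) - s ∘ₗ g) hmem
  have ht : ∀ x, f (t x) = x - s (g x) := by
    intro x
    have h1 : f (t x) = ((LinearEquiv.ofInjective f hf) (t x) : N) := rfl
    rw [h1]
    have h2 : (LinearEquiv.ofInjective f hf) (t x) =
        LinearMap.codRestrict (LinearMap.range f) ((LinearMap.id : N →ₗ[E] N) - s ∘ₗ g) hmem x := by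
      change (LinearEquiv.ofInjective f hf) ((LinearEquiv.ofInjective f hf).symm _) = _
      rw [LinearEquiv.apply_symm_apply]
    rw [h2]
    rfl
  have hgf : ∀ y, g (f y) = 0 := fun y => (hfg _).2 ⟨y, rfl⟩
  have htf : ∀ y, t (f y) = y := by
    intro y
    apply hf
    rw [ht, hgf, map_zero, sub_zero]
  let i : N →ₗ[E] (κ' ⊕ κ'' → E) :=
    { toFun := fun x => Sum.elim (i' (t x)) (i'' (g x))
      map_add' := by
        intro a b
        funext c
        rcases c with c | c <;> simp
      map_smul' := by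
        intro a b
        funext c
        rcases c with c | c <;> simp }
  let p : (κ' ⊕ κ'' → E) →ₗ[E] N :=
    f ∘ₗ p' ∘ₗ LinearMap.funLeft E E Sum.inl + s ∘ₗ p'' ∘ₗ LinearMap.funLeft E E Sum.inr
  have hpi : ∀ x, p (i x) = x := by
    intro x
    change f (p' (i' (t x))) + s (p'' (i'' (g x))) = x
    rw [hp', hp'', ht]
    abel
  refine ⟨i, p, hpi, ?_⟩
  -- the blocks
  let R' : A → Matrix κ' κ' E := fun a => mx (i' ∘ₗ X'.r a ∘ₗ p')
  let R'' : A → Matrix κ'' κ'' E := fun a => mx (i'' ∘ₗ X''.r a ∘ₗ p'')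
  let c : A → Matrix κ'' κ' E := fun a => mx (i' ∘ₗ t ∘ₗ X.r a ∘ₗ s ∘ₗ p'')
  let R : k → A → Matrix (κ' ⊕ κ'') (κ' ⊕ κ'') E := fun z a =>
    Matrix.fromBlocks (R' a) 0 (z • c a) (R'' a)
  have hR1 : ∀ a, mx (i ∘ₗ X.r a ∘ₗ p) = R 1 a := by
    intro a
    have e1 : ∀ u : κ', p (Pi.single (Sum.inl u) 1) = f (p' (Pi.single u 1)) := by
      intro u
      change f (p' (LinearMap.funLeft E E Sum.inl (Pi.single (Sum.inl u) 1))) +
        s (p'' (LinearMap.funLeft E E Sum.inr (Pi.single (Sum.inl u) 1))) = _
      have a1 : LinearMap.funLeft E E (Sum.inl : κ' → κ' ⊕ κ'') (Pi.single (Sum.inl u) 1) =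
          Pi.single u 1 := by
        funext w
        simp [LinearMap.funLeft_apply, Pi.single_apply]
      have a2 : LinearMap.funLeft E E (Sum.inr : κ'' → κ' ⊕ κ'') (Pi.single (Sum.inl u) 1) =
          0 := by
        funext w
        simp [LinearMap.funLeft_apply]
      rw [a1, a2, map_zero, map_zero, add_zero]
    have e2 : ∀ u : κ'', p (Pi.single (Sum.inr u) 1) = s (p'' (Pi.single u 1)) := by
      intro u
      change f (p' (LinearMap.funLeft E E Sum.inl (Pi.single (Sum.inr u) 1))) +
        s (p'' (LinearMap.funLeft E E Sum.inr (Pi.single (Sum.inr u) 1))) = _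
      have a1 : LinearMap.funLeft E E (Sum.inl : κ' → κ' ⊕ κ'') (Pi.single (Sum.inr u) 1) =
          0 := by
        funext w
        simp [LinearMap.funLeft_apply]
      have a2 : LinearMap.funLeft E E (Sum.inr : κ'' → κ' ⊕ κ'') (Pi.single (Sum.inr u) 1) =
          Pi.single u 1 := by
        funext w
        simp [LinearMap.funLeft_apply, Pi.single_apply]
      rw [a1, a2, map_zero, map_zero, zero_add]
    ext u v
    rcases u with u | u <;> rcases v with v | v
    · change i (X.r a (p (Pi.single (Sum.inl u) 1))) (Sum.inl v) = _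
      rw [e1, ← hXf]
      change i' (t (f _)) v = _
      rw [htf]
      rfl
    · change i (X.r a (p (Pi.single (Sum.inl u) 1))) (Sum.inr v) = _
      rw [e1, ← hXf]
      change i'' (g (f _)) v = _
      rw [hgf, map_zero]
      rfl
    · change i (X.r a (p (Pi.single (Sum.inr u) 1))) (Sum.inl v) = _
      rw [e2]
      change i' (t (X.r a (s _))) v = ((1 : k) • c a) u v
      rw [one_smul]
      rfl
    · change i (X.r a (p (Pi.single (Sum.inr u) 1))) (Sum.inr v) = _
      rw [e2]
      change i'' (g (X.r a (s _))) v = _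
      rw [hXg, hs']
      rfl
  have hmul : ∀ a b, R 1 (a * b) = R 1 a * R 1 b := by
    intro a b
    rw [← hR1, ← hR1, ← hR1]
    exact rl_mul X i p hpi a b
  have hadd : ∀ a b, R 1 (a + b) = R 1 a + R 1 b := by
    intro a b
    rw [← hR1, ← hR1, ← hR1]
    exact rl_add X i p a b
  have hsmul : ∀ (z : k) a, R 1 (z • a) = z • R 1 a := by
    intro z a
    rw [← hR1, ← hR1]
    exact rl_smul X i p z a
  intro n φ hφ
  have hc := tc_cocy (κ := κ' ⊕ κ'') hTR hφ
  -- conjugation
  have hconj : ∀ z : k, z ≠ 0 → Cob n (fun x : ℕ → A =>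
      tc (n + 1) φ (fun j => R z (x j)) - tc (n + 1) φ (fun j => R 1 (x j))) := by
    intro z hz
    have h1 := hIN k (Matrix (κ' ⊕ κ'') (κ' ⊕ κ'') E)
      (Matrix.fromBlocks 1 0 0 (z • (1 : Matrix κ'' κ'' E)))
      (Matrix.fromBlocks 1 0 0 (z⁻¹ • (1 : Matrix κ'' κ'' E)))
      (by
        rw [Matrix.fromBlocks_multiply]
        simp [smul_smul, hz])
      (by
        rw [Matrix.fromBlocks_multiply]
        simp [smul_smul, hz]) n _ hc
    have h2 := h1.comp (R 1) hmul hadd hsmul
    refine h2.congr fun x => ?_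
    congr 2
    funext j
    simp only [R]
    rw [Matrix.fromBlocks_multiply, Matrix.fromBlocks_multiply]
    simp [smul_smul, hz]
  obtain ⟨l, hl1, hl2⟩ := interp k (n + 2)
  have hpoly : ∀ x : ℕ → A, tc (n + 1) φ (fun j => R 0 (x j)) =
      ∑ j ∈ range (n + 2 + 1), l j * tc (n + 1) φ (fun q => R ((j : k) + 1) (x q)) := by
    intro x
    obtain ⟨P, hP, hP'⟩ := poly_line hc.1
      (fun j => Matrix.fromBlocks (R' (x j)) 0 0 (R'' (x j)))
      (fun j => Matrix.fromBlocks 0 0 (c (x j)) 0)
    have e : ∀ z : k, (fun j => R z (x j)) = (fun j =>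
        (Matrix.fromBlocks (R' (x j)) 0 0 (R'' (x j)) +
        z • Matrix.fromBlocks 0 0 (c (x j)) 0 : Matrix (κ' ⊕ κ'') (κ' ⊕ κ'') E)) := by
      intro z
      funext j
      rw [Matrix.fromBlocks_smul, Matrix.fromBlocks_add]
      simp [R]
    rw [e 0, hP' 0, hl2 P hP]
    refine sum_congr rfl fun j _ => ?_
    rw [e ((j : k) + 1), hP']
  have hfin : Cob n (fun x : ℕ → A => ∑ j ∈ range (n + 2 + 1), l j *
      (tc (n + 1) φ (fun q => R ((j : k) + 1) (x q)) - tc (n + 1) φ (fun q => R 1 (x q)))) := by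
    refine Cob.sumc _ _ fun j _ => ?_
    refine (hconj ((j : k) + 1) ?_).mulc (l j)
    exact_mod_cast Nat.succ_ne_zero j
  refine hfin.negc.congr fun x => ?_
  have h1 : TF (n + 1) φ X i p x = tc (n + 1) φ (fun q => R 1 (x q)) := by
    unfold TF
    congr 1
    funext q
    exact hR1 (x q)
  have h2 : TF (n + 1) φ X' i' p' x + TF (n + 1) φ X'' i'' p'' x =
      tc (n + 1) φ (fun j => R 0 (x j)) := by
    have h3 := tc_diag hφ.1 (fun j => R' (x j)) (fun j => R'' (x j))
    have h4 : (fun j => R 0 (x j)) = fun j => Matrix.fromBlocks (R' (x j)) 0 0 (R'' (x j)) := by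
      funext j
      simp [R]
    rw [h4, h3]
    rfl
  rw [h1, h2, hpoly]
  have h5 : ∑ j ∈ range (n + 2 + 1), l j * (tc (n + 1) φ (fun q => R ((j : k) + 1) (x q)) -
      tc (n + 1) φ (fun q => R 1 (x q))) =
      ∑ j ∈ range (n + 2 + 1), l j * tc (n + 1) φ (fun q => R ((j : k) + 1) (x q)) -
      tc (n + 1) φ (fun q => R 1 (x q)) := by
    have h6 : ∑ j ∈ range (n + 2 + 1), l j * tc (n + 1) φ (fun q => R 1 (x q)) =
        tc (n + 1) φ (fun q => R 1 (x q)) := by
      rw [← Finset.sum_mul, hl1, one_mul]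
    conv_rhs => rw [← h6]
    rw [← Finset.sum_sub_distrib]
    exact sum_congr rfl fun j _ => by ring
  rw [h5]
  ring

end Pool.Agent.Helper70.HD
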