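import Pool.Agent.Helper80.HD.GoalsA
import Pool.Agent.Helper80.HD.GoalsB

/-!
# Project HD (MP_6af536_nt): packet ASS
-/

set_option autoImplicit false

open MvPolynomial

noncomputable section

namespace Pool.Agent.Helper70.HD

open Pool.Agent.Helper80.HD

section lin

variable {R : Type} [CommRing R] {N : ℕ}

/-- substituting `a` for the variable `j0` -/
def sb (j0 : Fin (N + 1)) (a : MvPolynomial (Fin (N + 1)) R) :
    MvPolynomial (Fin (N + 1)) R →ₐ[R] MvPolynomial (Fin (N + 1)) R :=
  aeval fun j => if j = j0 then a else X j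

theorem sb_X (j0 j : Fin (N + 1)) (a : MvPolynomial (Fin (N + 1)) R) :
    sb j0 a (X j) = if j = j0 then a else X j := by
  simp [sb]

theorem dvd_sub_sb (j0 : Fin (N + 1)) (a Q : MvPolynomial (Fin (N + 1)) R) :
    (X j0 - a) ∣ Q - sb j0 a Q := by
  induction Q using MvPolynomial.induction_on with
  | C r => simp [sb]
  | add p q hp hq =>
    have h : p + q - sb j0 a (p + q) = (p - sb j0 a p) + (q - sb j0 a q) := by
      rw [map_add]; ring
    rw [h]
    exact dvd_add hp hq
  | mul_X p j hp =>
    rw [map_mul, sb_X]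
    by_cases h : j = j0
    · subst h
      rw [if_pos rfl]
      have h2 : p * X j - sb j a p * a = (p - sb j a p) * X j + sb j a p * (X j - a) := by ring
      rw [h2]
      exact dvd_add (Dvd.dvd.mul_right hp _) (dvd_mul_left _ _)
    · rw [if_neg h, ← sub_mul]
      exact Dvd.dvd.mul_right hp _

/-- the linear form -/
def lf (v : Fin (N + 1) → R) : MvPolynomial (Fin (N + 1)) R := ∑ j, C (v j) * X j

/-- minus the rest of the linear form -/
def rf (j0 : Fin (N + 1)) (v : Fin (N + 1) → R) : MvPolynomial (Fin (N + 1)) R :=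
  -∑ j ∈ Finset.univ.erase j0, C (v j) * X j

theorem lf_eq (j0 : Fin (N + 1)) (v : Fin (N + 1) → R) (h : v j0 = 1) :
    lf v = X j0 - rf j0 v := by
  unfold lf rf
  rw [← Finset.add_sum_erase Finset.univ _ (Finset.mem_univ j0), h, C_1, one_mul, sub_neg_eq_add]

theorem coeff_lf (v : Fin (N + 1) → R) (j : Fin (N + 1)) :
    coeff (Finsupp.single j 1) (lf v) = v j := by
  classical
  unfold lf
  rw [coeff_sum, Finset.sum_eq_single j]
  · rw [coeff_C_mul, coeff_X, if_pos rfl, mul_one]
  · intro i _ hij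
    rw [coeff_C_mul, coeff_X, if_neg, mul_zero]
    rw [Finsupp.single_left_inj one_ne_zero]
    exact hij
  · intro h
    exact absurd (Finset.mem_univ j) h

theorem sb_lf (j0 : Fin (N + 1)) (a : MvPolynomial (Fin (N + 1)) R) (v : Fin (N + 1) → R)
    (h : v j0 = 1) : sb j0 a (lf v) = a - rf j0 v := by
  rw [lf_eq j0 v h, map_sub, sb_X, if_pos rfl]
  congr 1
  unfold rf
  rw [map_neg, map_sum]
  congr 1
  refine Finset.sum_congr rfl fun i hi => ?_
  rw [map_mul, sb_X, if_neg (Finset.ne_of_mem_erase hi)]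
  congr 1
  simp [sb]

theorem lf_dvd_iff (j0 : Fin (N + 1)) (v : Fin (N + 1) → R) (h : v j0 = 1)
    (Q : MvPolynomial (Fin (N + 1)) R) : lf v ∣ Q ↔ sb j0 (rf j0 v) Q = 0 := by
  constructor
  · rintro ⟨S, rfl⟩
    rw [map_mul, sb_lf j0 _ v h, sub_self, zero_mul]
  · intro h0
    have := dvd_sub_sb j0 (rf j0 v) Q
    rw [h0, sub_zero, ← lf_eq j0 v h] at this
    exact this

theorem prime_lf [IsDomain R] (j0 : Fin (N + 1)) (v : Fin (N + 1) → R) (h : v j0 = 1) :
    Prime (lf v) := by
  refine ⟨?_, ?_, ?_⟩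
  · intro h0
    have := coeff_lf v j0
    rw [h0, coeff_zero, h] at this
    exact zero_ne_one this
  · intro hu
    have := (lf_dvd_iff j0 v h 1).mp hu.dvd
    rw [map_one] at this
    exact one_ne_zero this
  · intro A B hAB
    rw [lf_dvd_iff j0 v h, map_mul] at hAB
    rw [lf_dvd_iff j0 v h, lf_dvd_iff j0 v h]
    exact mul_eq_zero.mp hAB

theorem eq_of_lf_dvd (j0 : Fin (N + 1)) (v w : Fin (N + 1) → R) (hv : v j0 = 1) (hw : w j0 = 1)
    (h : lf v ∣ lf w) : v = w := by
  rw [lf_dvd_iff j0 v hv, sb_lf j0 _ w hw, sub_eq_zero] at h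
  have h2 : lf v = lf w := by rw [lf_eq j0 v hv, lf_eq j0 w hw, h]
  funext j
  rw [← coeff_lf v j, ← coeff_lf w j, h2]

theorem eval_lf (v t : Fin (N + 1) → R) : eval t (lf v) = ∑ j, v j * t j := by
  unfold lf
  simp

end lin

/-- The substitution over an intermediate ring. -/
theorem map_sbE {L E C' : Type} [Field L] [Field E] [Field C'] [Algebra L E] [Algebra L C']
    (τ : E →ₐ[L] C') {N : ℕ} (j0 : Fin (N + 1)) (v : Fin (N + 1) → E)
    (Q : MvPolynomial (Fin (N + 1)) L) :
    map (τ : E →+* C') (aeval (fun j => if j = j0 then rf j0 v else X j) Q) =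
      sb j0 (rf j0 (fun j => τ (v j))) (map (algebraMap L C') Q) := by
  induction Q using MvPolynomial.induction_on with
  | C r =>
    have h1 : (aeval (fun j => if j = j0 then rf j0 v else X j)) (C r) =
        (C (algebraMap L E r) : MvPolynomial (Fin (N + 1)) E) := by
      rw [← algebraMap_eq, AlgHom.commutes]
      rfl
    rw [h1, map_C, map_C]
    have h2 : sb j0 (rf j0 (fun j => τ (v j))) (C (algebraMap L C' r)) =
        C (algebraMap L C' r) := by
      simp [sb]
    rw [h2]
    congr 1
    exact τ.commutes r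
  | add p q hp hq => simp only [map_add, hp, hq]
  | mul_X p j hp =>
    rw [map_mul, map_mul, hp, map_mul, map_mul, map_X, sb_X]
    congr 1
    rw [aeval_X]
    by_cases h : j = j0
    · rw [if_pos h, if_pos h]
      unfold rf
      rw [map_neg, map_sum]
      congr 1
      refine Finset.sum_congr rfl fun i _ => ?_
      rw [map_mul, map_C, map_X]
      rfl
    · rw [if_neg h, if_neg h, map_X]

section clear

variable (K : Type) [Field K] [Algebra K ℂ] {k N : ℕ} (u : Fin k × Fin (N + 1) → ℂ)

theorem sub_up (b : MvPolynomial (Fin k × Fin (N + 1)) K) :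
    sub K (uL K u) (up K b) = C (aeval (uL K u) b) := by
  induction b using MvPolynomial.induction_on with
  | C r =>
    unfold up
    have h1 : aeval (uL K u) (C r) = algebraMap K (LK K u) r := by
      rw [← algebraMap_eq, AlgHom.commutes]
    rw [rename_C, h1, ← algebraMap_eq, AlgHom.commutes]
    rfl
  | add p q hp hq =>
    unfold up at *
    simp only [map_add, hp, hq]
  | mul_X p j hp =>
    unfold up at *
    rw [map_mul, map_mul, hp, rename_X, map_mul, map_mul, aeval_X]
    congr 1
    simp [sub]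

theorem sub_X0 (j : Fin (N + 1)) : sub K (uL K u) (X (0, j)) = X j := by
  simp [sub]

/-- Clearing the denominators. -/
theorem exists_clear (T : MvPolynomial (Fin (N + 1)) (LK K u)) :
    ∃ b : MvPolynomial (Fin k × Fin (N + 1)) K, aeval (uL K u) b ≠ 0 ∧
      ∃ H, sub K (uL K u) H = C (aeval (uL K u) b) * T := by
  induction T using MvPolynomial.induction_on with
  | C a =>
    obtain ⟨r, s, h⟩ := (IntermediateField.mem_adjoin_range_iff K u (a : ℂ)).mp a.2
    by_cases hs : aeval u s = 0
    · refine ⟨1, by simp, 0, ?_⟩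
      rw [hs, div_zero] at h
      have : a = 0 := Subtype.ext h
      rw [this, map_zero, map_zero, mul_zero]
    · have hcoe : ∀ q : MvPolynomial (Fin k × Fin (N + 1)) K,
          ((aeval (uL K u) q : LK K u) : ℂ) = aeval u q := by
        intro q
        have h1 := MvPolynomial.comp_aeval_apply (uL K u) (IntermediateField.val (LK K u)) q
        exact h1
      refine ⟨s, ?_, up K r, ?_⟩
      · intro h0
        apply hs
        rw [← hcoe, h0]
        rfl
      · rw [sub_up, ← C_mul]
        congr 1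
        apply Subtype.ext
        rw [hcoe, IntermediateField.coe_mul, hcoe, h, mul_div_cancel₀ _ hs]
  | add p q hp hq =>
    obtain ⟨b1, hb1, H1, h1⟩ := hp
    obtain ⟨b2, hb2, H2, h2⟩ := hq
    refine ⟨b1 * b2, ?_, H1 * up K b2 + H2 * up K b1, ?_⟩
    · rw [map_mul]
      exact mul_ne_zero hb1 hb2
    · rw [map_add, map_mul, map_mul, h1, h2, sub_up, sub_up, map_mul, C_mul]
      ring
  | mul_X p j hp =>
    obtain ⟨b, hb, H, h⟩ := hp
    refine ⟨b, hb, H * X (0, j), ?_⟩
    rw [map_mul, h, sub_X0, mul_assoc]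

/-- Values. -/
theorem aeval_eq_sub (θ : Fin (k + 1) × Fin (N + 1) → ℂ) (hθ : ∀ i j, θ (Fin.succ i, j) = u (i, j))
    (H : MvPolynomial (Fin (k + 1) × Fin (N + 1)) K) :
    aeval θ H = eval (fun j => θ (0, j)) (map (algebraMap (LK K u) ℂ) (sub K (uL K u) H)) := by
  induction H using MvPolynomial.induction_on with
  | C r =>
    rw [← algebraMap_eq, AlgHom.commutes, AlgHom.commutes]
    have h1 : (algebraMap K (MvPolynomial (Fin (N + 1)) (LK K u))) r =
        C (algebraMap K (LK K u) r) := rfl
    rw [h1, map_C, eval_C]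
    rfl
  | add p q hp hq => simp only [map_add, hp, hq]
  | mul_X p q hp =>
    rw [map_mul, map_mul, map_mul, map_mul, hp, aeval_X]
    congr 1
    obtain ⟨i, j⟩ := q
    refine Fin.cases ?_ (fun i => ?_) i
    · rw [sub_X0, map_X, eval_X]
    · have h1 : sub K (uL K u) (X (i.succ, j)) = C (uL K u (i, j)) := by simp [sub]
      rw [h1, map_C, eval_C, hθ]
      rfl

end clear

theorem ass (hGENV : S_GENV) (hFIN : S_FIN) (hRES : S_RES) (hNF : S_NF) : S_ASS := by
  intro K _ _ _ F k N x z j0 p c hFG htr hz hx hxj hzp hc u hu E hE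
  have hc1 : AlgebraicIndependent F (fun q : Fin k × Fin (N + 1) => c (q.1.succ, q.2)) := by
    have h1 := hc.comp (fun q : Fin k × Fin (N + 1) => (q.1.succ, q.2)) (by
      rintro ⟨i, j⟩ ⟨i', j'⟩ h
      simp only [Prod.mk.injEq, Fin.succ_inj] at h
      exact Prod.ext h.1 h.2)
    exact h1
  have hfin := hFIN K F k N z p _ hFG htr hzp hz hc1
  rw [← hu] at hfin
  have hEF : E ≤ FF K (LK K u) F := by
    rw [hE, IntermediateField.adjoin_le_iff]
    rintro _ ⟨j, rfl⟩
    apply IntermediateField.subset_adjoin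
    apply hx.2.1
    apply IntermediateField.subset_adjoin
    exact ⟨j, j0, rfl⟩
  have hfinE : FiniteDimensional (LK K u) E := by
    exact FiniteDimensional.of_injective (IntermediateField.inclusion hEF).toLinearMap
      (IntermediateField.inclusion_injective hEF)
  refine ⟨hfinE, ?_⟩
  -- the resultant form
  set Z : Fin (k + 1) → Fin (N + 1) → ℂ := Fin.cons x z with hZ
  obtain ⟨hP, -, -⟩ := hRES K F k N Z hFG htr (Fin.cases hx hz)
  set P := resForm K Z with hPdef
  obtain ⟨hg1, hg2⟩ := hGENV K F (k + 1) N Z (Fin.cons j0 p) c (Fin.cases hxj hzp)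
  have hg3 := (hg2 (Fin.cases hx.2.1 (fun i => (hz i).2.1)) hc).2
  -- the norm form
  obtain ⟨-, hN2, -, -, hN5⟩ := hNF (LK K u) E N (toE E (nrm x j0))
  have hN2' := hN2 ℂ
  have hmemE : ∀ j, nrm x j0 j ∈ E := by
    intro j
    rw [hE]
    exact IntermediateField.subset_adjoin _ _ (Set.mem_range_self j)
  have htoE : ∀ j, ((toE E (nrm x j0) j : E) : ℂ) = x j / x j0 := by
    intro j
    unfold toE
    rw [dif_pos (hmemE j)]
    rfl
  have htoE0 : toE E (nrm x j0) j0 = 1 := by
    apply Subtype.ext
    rw [htoE, div_self hxj]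
    rfl
  set v : Fin (N + 1) → E := toE E (nrm x j0) with hv
  have hv0 : v ≠ 0 := by
    intro h
    have : v j0 = 0 := by rw [h]; rfl
    rw [htoE0] at this
    exact one_ne_zero this
  have hN0 := hN5 hv0
  set Nf := normForm (LK K u) E v with hNf
  have hmapN : map (algebraMap (LK K u) ℂ) Nf =
      ∏ τ : E →ₐ[LK K u] ℂ, lf (fun j => τ (v j)) := hN2'
  set Q := sub K (uL K u) P with hQ
  -- values of `Q`
  have hvanP : Vanishes K Z P := (hP P).mp dvd_rfl
  have hgu : ∀ i, ∑ j, u (i, j) * z i j = 0 := by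
    intro i
    rw [hu]
    exact (hGENV K F k N z p (fun q => c (q.1.succ, q.2)) hzp).1 i
  have hQval : ∀ t : Fin (N + 1) → ℂ, ∑ j, t j * x j = 0 →
      eval t (map (algebraMap (LK K u) ℂ) Q) = 0 := by
    intro t ht
    have h1 := hvanP (fun q => Fin.cases (motive := fun _ => ℂ) (t q.2) (fun i => u (i, q.2)) q.1)
      (Fin.cases ht hgu)
    rw [aeval_eq_sub K u _ (fun i j => rfl) P] at h1
    exact h1
  -- (a)
  have ha : ∀ τ : E →ₐ[LK K u] ℂ, lf (fun j => τ (v j)) ∣ map (algebraMap (LK K u) ℂ) Q := by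
    intro τ
    rw [lf_dvd_iff j0 _ (by rw [htoE0, map_one]), ← map_sbE τ j0 v Q]
    have hzero : aeval (fun j => if j = j0 then rf j0 v else X j) Q =
        (0 : MvPolynomial (Fin (N + 1)) E) := by
      apply MvPolynomial.map_injective ((IntermediateField.val E : E →ₐ[LK K u] ℂ) : E →+* ℂ)
        (RingHom.injective _)
      rw [map_sbE (IntermediateField.val E) j0 v Q, map_zero]
      refine MvPolynomial.funext fun t => ?_
      have h1 : eval t (sb j0 (rf j0 fun j => (IntermediateField.val E) (v j))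
          (map (algebraMap (LK K u) ℂ) Q)) =
          eval (fun j => if j = j0 then -∑ i ∈ Finset.univ.erase j0, (x i / x j0) * t i else t j)
          (map (algebraMap (LK K u) ℂ) Q) := by
        unfold sb
        rw [← MvPolynomial.coe_aeval_eq_eval, ← MvPolynomial.coe_aeval_eq_eval]
        have h2 := MvPolynomial.comp_aeval_apply
          (fun j => if j = j0 then rf j0 (fun j => (IntermediateField.val E) (v j)) else X j)
          (aeval t : MvPolynomial (Fin (N + 1)) ℂ →ₐ[ℂ] ℂ) (map (algebraMap (LK K u) ℂ) Q)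
        refine h2.trans ?_
        have h3 : (fun i => (aeval t : MvPolynomial (Fin (N + 1)) ℂ →ₐ[ℂ] ℂ)
            (if i = j0 then rf j0 (fun j => (IntermediateField.val E) (v j)) else X i)) =
            (fun j => if j = j0 then -∑ i ∈ Finset.univ.erase j0, (x i / x j0) * t i
              else t j) := by
          funext j
          by_cases hj : j = j0
          · rw [if_pos hj, if_pos hj]
            unfold rf
            rw [map_neg, map_sum]
            congr 1
            refine Finset.sum_congr rfl fun i _ => ?_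
            rw [map_mul, aeval_X, ← algebraMap_eq, AlgHom.commutes]
            have h4 : (IntermediateField.val E) (v i) = x i / x j0 := htoE i
            exact congrArg (fun w : ℂ => w * t i) h4
          · rw [if_neg hj, if_neg hj, aeval_X]
        rw [h3]
        rfl
      rw [h1, map_zero]
      apply hQval
      rw [← Finset.add_sum_erase Finset.univ _ (Finset.mem_univ j0), if_pos rfl, neg_mul,
        Finset.sum_mul, neg_add_eq_zero]
      refine Finset.sum_congr rfl fun i hi => ?_
      rw [if_neg (Finset.ne_of_mem_erase hi)]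
      field_simp
    rw [hzero, map_zero]
  have hrel : Pairwise (Function.onFun IsRelPrime
      (fun τ : E →ₐ[LK K u] ℂ => lf (fun j => τ (v j)))) := by
    intro τ τ' hne
    have hirr := (prime_lf j0 (fun j => τ (v j)) (by rw [htoE0, map_one])).irreducible
    refine hirr.isRelPrime_iff_not_dvd.mpr ?_
    intro hdvd
    apply hne
    have heq := eq_of_lf_dvd j0 (fun j => τ (v j)) (fun j => τ' (v j))
      (by rw [htoE0, map_one]) (by rw [htoE0, map_one]) hdvd
    subst hE
    refine IntermediateField.algHom_ext_of_eq_adjoin _ rfl ?_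
    rintro _ ⟨j, rfl⟩
    have h1 : τ (v j) = τ' (v j) := congrFun heq j
    have h2 : v j = ⟨nrm x j0 j, hmemE j⟩ := by
      apply Subtype.ext
      rw [htoE]
      rfl
    rw [h2] at h1
    exact h1
  have hdiv1 : map (algebraMap (LK K u) ℂ) Nf ∣ map (algebraMap (LK K u) ℂ) Q := by
    rw [hmapN]
    exact Fintype.prod_dvd_of_isRelPrime hrel ha
  -- (c)
  have hdiv2 : Q ∣ Nf := by
    obtain ⟨b, hb, H, hH⟩ := exists_clear K u Nf
    have hvanH : Vanishes K Z H := by
      rw [hg3 H, aeval_eq_sub K u _ (fun i j => ?_) H, hH, map_mul, map_mul, hmapN]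
      · have hid : eval (fun j => gen Z (Fin.cons j0 p : Fin (k + 1) → Fin (N + 1)) c (0, j))
            (lf (fun j => (IntermediateField.val E) (v j))) = 0 := by
          rw [eval_lf]
          have h1 := hg1 0
          rw [← mul_right_inj' (inv_ne_zero hxj), mul_zero, Finset.mul_sum] at h1
          rw [← h1]
          refine Finset.sum_congr rfl fun j _ => ?_
          have h4 : (IntermediateField.val E) (v j) = x j / x j0 := htoE j
          rw [h4]
          have h5 : Z 0 j = x j := rfl
          rw [h5]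
          ring
        rw [map_prod, Finset.prod_eq_zero (Finset.mem_univ (IntermediateField.val E)) hid, mul_zero]
      · rw [hu]
        unfold gen
        simp only [Fin.cons_succ, hZ]
    have hPH : P ∣ H := (hP H).mpr hvanH
    obtain ⟨G, rfl⟩ := hPH
    rw [map_mul] at hH
    have hunit : (C (aeval (uL K u) b)⁻¹ : MvPolynomial (Fin (N + 1)) (LK K u)) *
        C (aeval (uL K u) b) = 1 := by
      rw [← C_mul, inv_mul_cancel₀ hb, C_1]
    refine ⟨C (aeval (uL K u) b)⁻¹ * sub K (uL K u) G, ?_⟩
    calc Nf = (C (aeval (uL K u) b)⁻¹ * C (aeval (uL K u) b)) * Nf := by rw [hunit, one_mul]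
      _ = C (aeval (uL K u) b)⁻¹ * (Q * sub K (uL K u) G) := by rw [mul_assoc, ← hH]
      _ = _ := by ring
  obtain ⟨T, hT⟩ := hdiv2
  obtain ⟨S, hS⟩ := hdiv1
  have hmapN0 : map (algebraMap (LK K u) ℂ) Nf ≠ 0 := by
    intro h
    apply hN0
    exact MvPolynomial.map_injective _ (RingHom.injective _) (by rw [h, map_zero])
  have hunitT : IsUnit (map (algebraMap (LK K u) ℂ) T) := by
    refine IsUnit.of_mul_eq_one S ?_
    have h1 : map (algebraMap (LK K u) ℂ) Nf * (map (algebraMap (LK K u) ℂ) T * S) =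
        map (algebraMap (LK K u) ℂ) Nf * 1 := by
      conv_rhs => rw [hT, map_mul, hS]
      ring
    exact mul_left_cancel₀ hmapN0 h1
  obtain ⟨r, -, hr⟩ := MvPolynomial.isUnit_iff_eq_C_of_isReduced.mp hunitT
  have hTC : T = C (coeff 0 T) := by
    refine MvPolynomial.ext _ _ fun m => ?_
    by_cases hm : m = 0
    · rw [hm, coeff_C, if_pos rfl]
    · rw [coeff_C, if_neg (Ne.symm hm)]
      have h1 : coeff m (map (algebraMap (LK K u) ℂ) T) = 0 := by
        rw [hr, coeff_C, if_neg (Ne.symm hm)]
      rw [coeff_map] at h1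
      exact (RingHom.injective (algebraMap (LK K u) ℂ)) (by rw [h1, map_zero])
  have hT0 : coeff 0 T ≠ 0 := by
    intro h0
    rw [h0, map_zero] at hTC
    rw [hTC, mul_zero] at hT
    exact hN0 hT
  refine ⟨(coeff 0 T)⁻¹, inv_ne_zero hT0, ?_⟩
  calc Q = Q * (C (coeff 0 T) * C (coeff 0 T)⁻¹) := by
        rw [← C_mul, mul_inv_cancel₀ hT0, C_1, mul_one]
    _ = C (coeff 0 T)⁻¹ * (Q * C (coeff 0 T)) := by ring
    _ = C (coeff 0 T)⁻¹ * Nf := by rw [← hTC, ← hT]

end Pool.Agent.Helper70.HD
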